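import Pool.Agent.Lib.MP_c1fe4e_nt.Cubic

/-! Feit's question for admissible `n` such that two has small order modulo `n ^ 2 + n + 1`. -/

theorem Pool.Agent.Results.MP_c1fe4e_nt.SmallOrder.result :
    ∀ n : ℕ, Even n → Nat.Prime (n ^ 2 + n + 1) →
      Nat.ModEq (n ^ 2 + n + 1) (2 ^ (n + 1)) 1 → 3 ∣ n + 1 →
      ∀ a m t e : ℕ, n = 2 ^ a * m → 2 ^ a * m ^ (3 * t + 2) < n ^ 2 + n + 1 → 0 < e →
        Nat.ModEq (n ^ 2 + n + 1) (2 ^ e) 1 →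
        2 ^ e ≤ (2 ^ (a * (3 * t + 1)) * (n ^ 2 + n + 1)) ^ 3 → ∃ k : ℕ, n = 2 ^ k :=
  fun _ h2 hp h h3 _ _ _ _ hm ht he h1 hs =>
    Pool.Agent.Lib.MP_c1fe4e_nt.small_order rfl h2 hp h h3 hm ht he h1 hs
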